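import Pool.Agent.N897.FO.Main
import Pool.Agent.TH468.BA.Triple
import Pool.Agent.Results.MP_c82047_co.AlmostAllOrders

/-!
# The Brown-Erdős-Sós problem for triple systems with a group of automorphisms: few exceptional orders

The starting theorem `AlmostAllOrders` treats triple systems which are invariant under ANY group of order `m` such that every
vertex is fixed or lies in an orbit of length `m` (for instance partial Latin squares and groups acting freely on the rows and
the symbols), for almost all `m`. Here the number of the exceptional orders is bounded. Let `κ' > κ ≥ 0`. There is `K₀` such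
that for all `k ≥ K₀` and all `m ≤ x` but at most `K x exp (- c √(log x))`: let a finite group, of any structure, of order at
most `m exp (√(log m) / 8)` act on a finite set such that all orbits have length `m` or `1`, and let `w ≤ m ^ (1 + κ)` be the
number of the vertices in orbits of length `m`. If an invariant triple system has more than `w ^ (1 + κ')` triples containing
such a vertex then some `k` vertices span at least `k + ⌊k / K₀⌋` triples (the question asks for `k - 3`). The same holds for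
the orders `F (m)` where `F` is a composition of additive functions (or of similar functions), for all `m ≤ x` but
`K x exp (- c (log x) ^ (1 / (j + 2)))`, `j` the number of the functions.

Proof. As for the starting theorem it is sufficient to count the `m ≤ x` which are divisible by the square of a prime
`p > y`, or by `p d` with `d > 1`, `d ≡ 1` modulo `p` (up to small factors), or with a `y`-smooth part larger than `m ^ ε`.
There we use `y = exp √(log x)` and Rankin's method for the smooth part. The preimages under functions dominated by the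
largest prime factor of thin sets are thin (`Pool/Agent/N375/AV`, helper375).
-/

set_option autoImplicit false

namespace Pool.Agent.Results.MP_c82047_co.FewExceptionalOrders

open Pool.Agent.N897.FO (S orders values large_pow)
open Pool.Agent.N375.AV (PD comp pd_additive pd_largest pd_kempner)
open Pool.Agent.TH669.AD (GoodDeg)
open Pool.Agent.Results.MP_c82047_co.AlmostAllOrders (SparseTriple)

/-- let a finite group of order at most `S m * m` act on a finite set `V` such that all orbits have length `m` or `1`, and let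
`w ≤ m ^ (1 + κ)` be the number of elements in orbits of length `m`; if an invariant set `H` of triples contains more than
`w ^ (1 + κ')` triples with such an element then some `k` elements of `V` span at least `k + ⌊k / K₀⌋` triples of `H` -/
def TriplesAt (K₀ k : ℕ) (κ κ' : ℝ) (m : ℕ) : Prop :=
  ∀ (V G : Type) [Fintype V] [DecidableEq V] [Group G] [Finite G] [MulAction G V],
    Nat.card G ≤ S m * m →
    (∀ v : V, (MulAction.orbit G v).ncard = m ∨ (MulAction.orbit G v).ncard = 1) →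
    ∀ w : ℕ, w = {v : V | (MulAction.orbit G v).ncard = m}.ncard → (w : ℝ) ≤ (m : ℝ) ^ (1 + κ) →
    ∀ H : Finset (Finset V), (∀ e ∈ H, e.card = 3) →
      (∀ (a : G), ∀ e ∈ H, e.image (fun x => a • x) ∈ H) →
      (w : ℝ) ^ (1 + κ') < ({e : Finset V | e ∈ H ∧ ∃ v ∈ e, (MulAction.orbit G v).ncard = m}.ncard : ℕ) →
      ∃ T : Finset V, T.card = k ∧ k + k / K₀ ≤ (H.filter fun e => e ⊆ T).card

/-- the conclusion for large `m` -/
lemma triplesAt {K : ℝ → ℕ} {C : ℝ → ℕ → ℕ}
    (h : ∀ (y m : ℕ) (B : ℝ), 2 ≤ B → S m ≤ y → GoodDeg y (S m) B m → 0 < m → SparseTriple K C m (S m) B)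
    {κ κ' : ℝ} (hκ : 0 ≤ κ) (hκ' : κ < κ') :
    ∃ δ : ℝ, 0 < δ ∧ ∀ k : ℕ, K δ ≤ k → ∃ ε : ℝ, 0 < ε ∧ ∃ M : ℕ, ∀ m y : ℕ, M ≤ m → 0 < m → S m ≤ y →
      (2 : ℝ) ≤ (m : ℝ) ^ ε → GoodDeg y (S m) ((m : ℝ) ^ ε) m → TriplesAt (K δ) k κ κ' m := by
  obtain ⟨δ, hδ⟩ : ∃ δ : ℝ, δ = (κ' - κ) / (2 * (1 + κ)) := ⟨_, rfl⟩
  have hδ0 : 0 < δ := by
    rw [hδ]
    apply div_pos <;> linarith
  refine ⟨δ, hδ0, fun k hk => ?_⟩
  obtain ⟨ε, hε⟩ : ∃ ε : ℝ, ε = min ((κ' - κ) / (4 * (1 + δ))) (1 / 2) := ⟨_, rfl⟩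
  have hε0 : 0 < ε := by
    rw [hε]
    apply lt_min _ (by norm_num)
    apply div_pos <;> linarith
  have hε1 : ε ≤ (κ' - κ) / (4 * (1 + δ)) := by rw [hε]; exact min_le_left _ _
  have hε2 : ε ≤ 1 / 2 := by rw [hε]; exact min_le_right _ _
  have hθ0 : 0 < (κ' - κ) / 4 := by linarith
  obtain ⟨M, hM2, hM⟩ := large_pow hθ0 (C δ k)
  obtain ⟨M', hM2', hM'⟩ := large_pow (show (0 : ℝ) < 1 / 2 by norm_num) (C δ k)
  refine ⟨ε, hε0, max M M', fun m y hm h0 h1 h2 h3 => ?_⟩
  intro V G _ _ _ _ _ hG horb w hw hwm H hunif hinv hH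
  have hm1 : (1 : ℝ) ≤ m := by exact_mod_cast h0
  have hm0 : (0 : ℝ) < m := by linarith
  have hCB : (C δ k : ℝ) * (m : ℝ) ^ ε ≤ m := by
    calc (C δ k : ℝ) * (m : ℝ) ^ ε ≤ (m : ℝ) ^ (1 / 2 : ℝ) * (m : ℝ) ^ (1 / 2 : ℝ) := by
          apply mul_le_mul (hM' m ((le_max_right _ _).trans hm)).le _ (by positivity) (by positivity)
          exact Real.rpow_le_rpow_of_exponent_le hm1 hε2
      _ = m := by
          rw [← Real.rpow_add hm0]
          norm_num
  have hsp := h y m _ h2 h1 h3 h0 V G hG horb H hunif hinv δ hδ0 k hk hCB w hw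
  apply hsp
  left
  have hpos : 0 < {e : Finset V | e ∈ H ∧ ∃ v ∈ e, (MulAction.orbit G v).ncard = m}.ncard := by
    have h5 : (0 : ℝ) < ({e : Finset V | e ∈ H ∧ ∃ v ∈ e, (MulAction.orbit G v).ncard = m}.ncard : ℕ) :=
      lt_of_le_of_lt (by positivity) hH
    exact_mod_cast h5
  obtain ⟨e₀, -, v, -, hv⟩ := Set.nonempty_of_ncard_ne_zero hpos.ne'
  have hmw : m ≤ w := by
    rw [hw]
    conv_lhs => rw [← hv]
    apply Set.ncard_le_ncard _ (Set.toFinite _)
    rintro u hu
    have : MulAction.orbit G u = MulAction.orbit G v := MulAction.orbit_eq_iff.2 hu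
    rw [Set.mem_setOf_eq, this]
    exact hv
  have hmw' : (m : ℝ) ≤ w := by exact_mod_cast hmw
  have hw0 : (0 : ℝ) < w := by linarith
  have hw1 : (1 : ℝ) ≤ w := by linarith
  have e1 : (m : ℝ) ^ ε * w / m ≤ (w : ℝ) ^ (ε + κ) := by
    have c2 : (m : ℝ) ^ ε * w / m ≤ (m : ℝ) ^ (ε + κ) := by
      rw [div_le_iff₀ hm0]
      calc (m : ℝ) ^ ε * w ≤ (m : ℝ) ^ ε * (m : ℝ) ^ (1 + κ) :=
            mul_le_mul_of_nonneg_left hwm (by positivity)
        _ = (m : ℝ) ^ (ε + κ) * m := by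
            rw [← Real.rpow_add hm0]
            conv_rhs => rw [← Real.rpow_one (m : ℝ), ← Real.rpow_mul hm0.le, ← Real.rpow_add hm0]
            congr 1
            ring
    exact c2.trans (Real.rpow_le_rpow hm0.le hmw' (by linarith))
  have e2 : (ε + κ) * (1 + δ) ≤ κ' - (κ' - κ) / 4 := by
    have e3 : ε * (1 + δ) ≤ (κ' - κ) / 4 := by
      calc ε * (1 + δ) ≤ (κ' - κ) / (4 * (1 + δ)) * (1 + δ) := mul_le_mul_of_nonneg_right hε1 (by linarith)
        _ = (κ' - κ) / 4 := by field_simp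
    have e4 : κ * δ ≤ (κ' - κ) / 2 := by
      rw [hδ, mul_div_assoc', div_le_div_iff₀ (by linarith) (by norm_num)]
      nlinarith
    nlinarith
  have e5 : (C δ k : ℝ) ≤ (w : ℝ) ^ ((κ' - κ) / 4) :=
    (hM m ((le_max_left _ _).trans hm)).le.trans (Real.rpow_le_rpow hm0.le hmw' hθ0.le)
  calc (C δ k : ℝ) * w * ((m : ℝ) ^ ε * w / m) ^ (1 + δ)
      ≤ (w : ℝ) ^ ((κ' - κ) / 4) * w * ((w : ℝ) ^ (ε + κ)) ^ (1 + δ) := by
        apply mul_le_mul
        · exact mul_le_mul_of_nonneg_right e5 hw0.le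
        · exact Real.rpow_le_rpow (by positivity) e1 (by linarith)
        · positivity
        · positivity
    _ = (w : ℝ) ^ ((κ' - κ) / 4 + 1 + (ε + κ) * (1 + δ)) := by
        rw [← Real.rpow_mul hw0.le, Real.rpow_add hw0, Real.rpow_add hw0, Real.rpow_one]
    _ ≤ (w : ℝ) ^ (1 + κ') := Real.rpow_le_rpow_of_exponent_le hw1 (by linarith)
    _ < _ := hH

/-- **Few exceptional orders.** (1) For `κ' > κ ≥ 0` there is `K₀` such that for all `k ≥ K₀` all but `K x exp (- c √(log x))` of the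
`m ≤ x` are orders with `TriplesAt K₀ k κ κ' m`. (2) The same for the numbers `F (m)`, `F` a composition of functions dominated
by the largest prime factor. (3) Examples of such functions. -/
theorem result :
    (∀ κ κ' : ℝ, 0 ≤ κ → κ < κ' → ∃ K₀ : ℕ, 1 ≤ K₀ ∧ ∀ k : ℕ, K₀ ≤ k →
      (∃ c K : ℝ, 0 < c ∧ ∀ x : ℕ, 1 ≤ x →
        ({m : ℕ | 1 ≤ m ∧ m ≤ x ∧ ¬ TriplesAt K₀ k κ κ' m}.ncard : ℝ) ≤ K * x * Real.exp (-(c * √(Real.log x)))) ∧
      ∀ fs : List (ℕ → ℕ), (∀ f ∈ fs, PD f) → ∃ c K : ℝ, 0 < c ∧ ∀ x : ℕ, 1 ≤ x →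
        ({m : ℕ | 1 ≤ m ∧ m ≤ x ∧ ¬ TriplesAt K₀ k κ κ' (comp fs m)}.ncard : ℝ) ≤
          K * x * Real.exp (-(c * Real.log x ^ (1 / ((fs.length : ℝ) + 2))))) ∧
    (∀ f : ℕ → ℕ, (∀ a b : ℕ, Nat.Coprime a b → f (a * b) = f a + f b) →
      (∃ C : ℕ, ∀ q j : ℕ, q.Prime → 1 ≤ j → f (q ^ j) ≤ C * q ^ j) →
      (∃ P : ℕ, ∀ p q : ℕ, p.Prime → q.Prime → P ≤ p → P ≤ q → f p = f q → p = q) → PD f) ∧
    (PD (fun n => n.primeFactors.sup id) ∧ PD (fun n => sInf {k : ℕ | n ∣ k.factorial})) := by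
  refine ⟨fun κ κ' hκ hκ' => ?_, fun f a1 a2 a3 => pd_additive a1 a2 a3, ⟨pd_largest, pd_kempner⟩⟩
  obtain ⟨K, C, hKC⟩ := Pool.Agent.TH468.BA.exists_fun_triple
  obtain ⟨δ, hδ, h⟩ := triplesAt (K := K) (C := C)
    (fun y m B hB hy hg hm => Pool.Agent.TH468.BA.triple_of_good hKC hB hy hg hm) hκ hκ'
  refine ⟨K δ, (hKC δ hδ).1, fun k hk => ?_⟩
  obtain ⟨ε, hε, M, hM⟩ := h k hk
  exact ⟨orders hε M hM, fun fs hfs => values hε M hM fs hfs⟩

end Pool.Agent.Results.MP_c82047_co.FewExceptionalOrders
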