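import Pool.Agent.N251.LF.AeExp
import Pool.Agent.Results.MP_c82047_co.FewExceptionalOrders

/-!
# The Brown-Erdős-Sós problem for triple systems with a group of automorphisms: all orders near generic linear forms

Let `v_i`, `i` in a countable set, be vectors in `ℝ^k` such that the sum of the `1 / (log |v_i|) ^ A` converges for some `A`;
for instance all vectors `(b_1^(n_1), …, b_k^(n_k))`, `b_j > 1`. Let `L = log |v_i|`. Let `κ' > κ ≥ 0`. There is `K₀` such that for
all `q ≥ K₀`, for almost all `α` in `ℝ^k`, for all `w` and `B` and all but finitely many `i`, EVERY natural number `m` with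
`|m - α · v_i| ≤ w L ^ B` has the following property. Let a finite group, of any structure, of order at most
`m exp (√(log m) / 8)` act on a finite set such that all orbits have length `m` or `1`, and let `u ≤ m ^ (1 + κ)` be the number of
the vertices in orbits of length `m`. If an invariant triple system has more than `u ^ (1 + κ')` triples containing such a
vertex then some `q` vertices span at least `q + ⌊q / K₀⌋` triples (the question asks for `q - 3`). The same holds for the orders
`F (m)` where `F` is a composition of additive functions (or of similar functions).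

Proof. The number of the exceptional `m ≤ x` is at most `K x exp (- c √(log x))` (`FewExceptionalOrders`, helper897). For each
`i` the volume of the set of the `α` with an exceptional number in the window of `v_i` is at most a power of `1 / L`, and the
lemma of Borel and Cantelli applies (`Pool.Agent.N251.LF.Ae`).
-/

set_option autoImplicit false

open MeasureTheory

namespace Pool.Agent.Results.MP_c82047_co.GenericLinearForms

open Pool.Agent.N251.LF (Slow Fast ae_nat slow_examples)
open Pool.Agent.N375.AV (PD comp pd_additive pd_largest pd_kempner)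
open Pool.Agent.Results.MP_c82047_co.FewExceptionalOrders (TriplesAt)

/-- **Theorem.** (1) For `κ' > κ ≥ 0` there is `K₀` such that for all `q ≥ K₀` the following holds. Let `v` be a family of
vectors in `ℝ^k` such that the sum of the `1 / (1 + log (1 + ‖v_i‖)) ^ A` converges for some `A` (`Slow`), and let
`L_i = 1 + log (1 + ‖v_i‖)`. For almost all `α` in `ℝ^k` and all `w`, `B`, for all but finitely many `i` ALL natural numbers `m`
with `|m - ∑ α_j v_(i,j)| ≤ w L_i ^ B` satisfy `TriplesAt K₀ q κ κ' m`; if `F` is the composition of a list of functions with the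
property `PD`, then the same holds with `TriplesAt K₀ q κ κ' (F m)`. (2) Examples of functions with the property `PD`.
(3) Examples of families of vectors. -/
theorem result :
    (∀ κ κ' : ℝ, 0 ≤ κ → κ < κ' → ∃ K₀ : ℕ, 1 ≤ K₀ ∧ ∀ q : ℕ, K₀ ≤ q →
      ∀ (k : ℕ) (ι : Type) (v : ι → Fin k → ℝ), Slow v →
      (∀ᵐ α : Fin k → ℝ, ∀ (w : ℝ) (B : ℕ),
        {i | ¬ ∀ m : ℕ, |(m : ℝ) - ∑ j, α j * v i j| ≤ w * (1 + Real.log (1 + ‖v i‖)) ^ B →
          TriplesAt K₀ q κ κ' m}.Finite) ∧
      ∀ fs : List (ℕ → ℕ), (∀ f ∈ fs, PD f) → ∀ᵐ α : Fin k → ℝ, ∀ (w : ℝ) (B : ℕ),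
        {i | ¬ ∀ m : ℕ, |(m : ℝ) - ∑ j, α j * v i j| ≤ w * (1 + Real.log (1 + ‖v i‖)) ^ B →
          TriplesAt K₀ q κ κ' (comp fs m)}.Finite) ∧
    ((∀ f : ℕ → ℕ, (∀ a b : ℕ, Nat.Coprime a b → f (a * b) = f a + f b) →
      (∃ C : ℕ, ∀ q j : ℕ, q.Prime → 1 ≤ j → f (q ^ j) ≤ C * q ^ j) →
      (∃ P : ℕ, ∀ p q : ℕ, p.Prime → q.Prime → P ≤ p → P ≤ q → f p = f q → p = q) → PD f) ∧
      PD (fun n => n.primeFactors.sup id) ∧ PD (fun n => sInf {k : ℕ | n ∣ k.factorial})) ∧
    (∀ (k : ℕ) (u : Fin k → ℕ → ℝ), (∀ j, Fast (u j)) → Slow (fun (n : Fin k → ℕ) (j : Fin k) => u j (n j))) ∧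
    (∀ b : ℝ, 1 < b → Fast (fun n => b ^ n)) ∧
    ∀ a : ℝ, 0 < a → Fast (fun n => Real.exp ((n : ℝ) ^ a)) := by
  refine ⟨fun κ κ' hκ hκ' => ?_, ⟨fun f a1 a2 a3 => pd_additive a1 a2 a3, pd_largest, pd_kempner⟩, slow_examples⟩
  obtain ⟨K₀, hK₀, h0⟩ := FewExceptionalOrders.result.1 κ κ' hκ hκ'
  refine ⟨K₀, hK₀, fun q hq k ι v hv => ?_⟩
  obtain ⟨h1, h2⟩ := h0 q hq
  refine ⟨?_, fun fs hfs => ?_⟩
  · refine ae_nat (β := 1 / 2) (by norm_num) _ ?_ v hv
    obtain ⟨c, K, hc, h⟩ := h1
    refine ⟨c, K, hc, fun x hx => ?_⟩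
    rw [← Real.sqrt_eq_rpow]
    exact h x hx
  · exact ae_nat (β := 1 / ((fs.length : ℝ) + 2)) (by positivity) (fun m => TriplesAt K₀ q κ κ' (comp fs m))
      (h2 fs hfs) v hv

end Pool.Agent.Results.MP_c82047_co.GenericLinearForms
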