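import Pool.Agent.N272.Bes.Seven

set_option autoImplicit false

/-!
# The (7,4)-problem for triple systems with one shadow of bounded VC dimension
-/

open Finset

namespace Pool.Agent.Results.MP_c82047_co.SevenFourBoundedVC

section
variable {X Y Z : Type} [Fintype X] [Fintype Y] [Fintype Z] [DecidableEq X] [DecidableEq Y]
  [DecidableEq Z]

/-- the neighbourhood of `x` in the class `Y` in the tripartite 3-graph `H` -/
def neighboursIn (H : Finset (X × Y × Z)) (x : X) : Finset Y :=
  univ.filter fun y => ∃ z, (x, y, z) ∈ H

/-- the number of vertices spanned by a set of edges -/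
def span (F : Finset (X × Y × Z)) : ℕ :=
  (F.image fun t => t.1).card + (F.image fun t => t.2.1).card + (F.image fun t => t.2.2).card

end

/-- **The (7,4)-problem with one shadow of bounded VC dimension.** Let `H` be a tripartite 3-graph
with classes `X, Y, Z` of at most `n` vertices in which no four edges span at most seven vertices.
If the neighbourhoods in `Y` of the vertices of `X` form a family of VC dimension at most `d`, then
`|H| ≤ C n ^ (2 - 1 / (4 d + 2))`, where `C` depends only on `d`. -/
theorem result (d : ℕ) : ∃ C : ℝ, 0 < C ∧ ∀ (X Y Z : Type) [Fintype X] [Fintype Y] [Fintype Z]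
    [DecidableEq X] [DecidableEq Y] [DecidableEq Z] (H : Finset (X × Y × Z)) (n : ℕ),
    Fintype.card X ≤ n → Fintype.card Y ≤ n → Fintype.card Z ≤ n →
    ((univ : Finset X).image (neighboursIn H)).vcDim ≤ d →
    (∀ F ⊆ H, F.card = 4 → 7 < span F) →
    (H.card : ℝ) ≤ C * (n : ℝ) ^ (2 - 1 / (4 * d + 2 : ℝ)) :=
  N272.Bes7.main d

end Pool.Agent.Results.MP_c82047_co.SevenFourBoundedVC
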