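import Pool.Agent.N598.BT.Main
import Pool.Agent.H96.BesAsy

/-!
# Triple systems given by tree tensor networks

The vertices are the `n = q ^ m` strings of `m` symbols of an alphabet `α` with `q` elements (for
instance the strings of `m` bits, or the points of `F_q ^ m`), in any labelling. `Covered L w 3 H`
(`Pool/Agent/N598/BT/Defs.lean`): the edges of the triple system `H` are covered by `L` sets of
ordered triples of strings, each of which is the support of a function of the `3 m` symbols of three
strings that is computed by a read-once tree tensor network of bond dimension at most `w` over some
field: the leaves of a binary tree read one symbol each, and vectors of dimension `w` are combined at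
the inner nodes by bilinear maps. The trees, the arrangement of the `3 m` symbols at the leaves
(symbols of different strings may be mixed in any way) and the fields are arbitrary, there may be
cancellations, and nothing is required of the values at the triples with a repeated string.

Theorem. Let `k = 18` or `k ≥ 23`. For every `η > 0` there are `δ > 0` and `C` such that if no `k`
edges of `H` have a union of size at most `k + 3` (so no `k + 3` vertices span `k` edges) and
`w ≤ n ^ δ` then `H` has at most `C L q ^ 15 n ^ (1 + η)` edges. Hence the conjectured bound
`o(n ^ 2)` holds for these `k`, with a power saving, for all triple systems given by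
`L ≤ n ^ (1 - 2 η)` networks of bond dimension at most `n ^ δ`, and a single network for a triple
system with `ε n ^ 2` edges and without such configurations has bond dimension more than `n ^ δ`.

Proof. `Pool/Agent/N598/BT/Grid.lean`, `Count.lean`: the support of a function contains a grid with
the directions `D` and side length `t` if it contains different points `z(a)`, `a ∈ [t] ^ D`, such
that the `i`th string of `z(a)` does not depend on `a_i`, for `i ∈ D`. The nodes of the tree give a
partition of the symbols into `O(1)` parts of small length, for each of which the flattening of the
function (symbols in the part against the others) has rank at most `w ^ 3`. The parts are removed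
one by one, and with each of them the direction with the least number of symbols in it may be given
up: a function without a grid in the directions `D` has few sections which are not covered by
products of `t` sections without a grid in the remaining directions. A grid with three directions
and any side length in the graph of the edges contains `k` edges on at most `k + 3` vertices
(`Pool.Agent.H96.Bes.grid3`).
-/

set_option autoImplicit false

namespace Pool.Agent.Results.MP_c82047_co.TensorNetworks

open Pool.Agent.N598.BT

open Classical in
theorem result (k : ℕ) (hk : k = 18 ∨ 23 ≤ k) (η : ℝ) (hη : 0 < η) :
    ∃ δ : ℝ, 0 < δ ∧ ∃ C : ℝ,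
      ∀ (α : Type) [Fintype α] [Nonempty α] (m L w : ℕ) (H : Finset (Finset (Fin m → α))),
        (∀ h ∈ H, h.card = 3) → Covered L w 3 H → (w : ℝ) ≤ ((Fintype.card α : ℝ) ^ m) ^ δ →
        (∀ G ⊆ H, G.card = k → k + 3 < (G.biUnion id).card) →
        (H.card : ℝ) ≤ C * L * (Fintype.card α : ℝ) ^ 15 *
          ((Fintype.card α : ℝ) ^ m) ^ (1 + η) := by
  obtain ⟨𝒯, h1, h2⟩ := Pool.Agent.H96.Bes.grid3 k hk
  obtain ⟨δ, hδ, C, hC⟩ := asymptotic (show 2 ≤ 3 by omega)
    (⟨0, Nat.two_pow_pos k⟩ : Fin (2 ^ k)) η hη
  refine ⟨δ, hδ, C, fun α _ _ m L w H hH hcov hw hfree => ?_⟩
  by_contra hcon
  rw [not_le] at hcon
  obtain ⟨G, g1, g2, g3⟩ := hC α m L w H hH hcov hw hcon 𝒯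
  have h3 := hfree G g1 (g2.trans h1)
  have h4 : (G.biUnion id).card ≤ k + 3 := g3.trans (by convert h2)
  omega

end Pool.Agent.Results.MP_c82047_co.TensorNetworks
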